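import Mathlib

set_option autoImplicit false
open Polynomial Topology Set

namespace Pool.Agent.Results.MP_bd2914_ag.SharpBound

/-- The value of the rational function `R` at a point (meaningful off the zeros of the
denominator). -/
noncomputable def value (R : RatFunc ℂ) (z : ℂ) : ℂ := R.num.eval z / R.denom.eval z

/-- `R` has pole divisor `∑ m p [p] + mInf [∞]`: the order of the pole of `R` at the finite point
`p` (`0` if there is no pole) is the multiplicity of `p` as a root of the reduced denominator, and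
the order of the pole at `∞` (`0` if there is none) is the (truncated) difference of the degrees
of numerator and denominator. -/
def HasPoleDivisor (R : RatFunc ℂ) (m : ℂ →₀ ℕ) (mInf : ℕ) : Prop :=
  (∀ p : ℂ, R.denom.rootMultiplicity p = m p) ∧ R.num.natDegree - R.denom.natDegree = mInf

/-- `I_R ∩ ℂ`: the finite points at which `R'` is real or `∞`. -/
def realLocus (R : RatFunc ℂ) : Set ℂ :=
  {z | R.denom.eval z = 0 ∨ (deriv (value R) z).im = 0}

/-- The bounded connected components of `I_R ∩ ℂ`. -/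
def boundedComponents (R : RatFunc ℂ) : Set (Set ℂ) :=
  {C | (∃ z ∈ realLocus R, C = connectedComponentIn (realLocus R) z) ∧ Bornology.IsBounded C}

/-! ### Topology -/

/-- A bounded component of a closed planar set that misses a closed set `B` lies in a compact,
relatively open piece missing `B`. -/
theorem exists_piece (I : Set ℂ) (hI : IsClosed I) (z : ℂ) (hz : z ∈ I)
    (hb : Bornology.IsBounded (connectedComponentIn I z)) (B : Set ℂ) (hB : IsClosed B)
    (hdisj : ∀ x ∈ connectedComponentIn I z, x ∉ B) :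
    ∃ V : Set ℂ, IsOpen V ∧ IsCompact (I ∩ V) ∧ z ∈ V ∧ ∀ x ∈ I ∩ V, x ∉ B := by
  obtain ⟨r, hr⟩ := hb.subset_ball (0 : ℂ)
  set X : Set ℂ := I ∩ Metric.closedBall 0 r with hX
  have hXc : IsCompact X := (isCompact_closedBall (0 : ℂ) r).inter_left hI
  have hzC : z ∈ connectedComponentIn I z := mem_connectedComponentIn hz
  have hzX : z ∈ X := ⟨hz, Metric.ball_subset_closedBall (hr hzC)⟩
  have : CompactSpace X := isCompact_iff_compactSpace.1 hXc
  let x : X := ⟨z, hzX⟩
  let B' : Set X := {y | (y : ℂ) ∈ B ∪ Metric.sphere 0 r}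
  have hB'c : IsClosed B' := (hB.union Metric.isClosed_sphere).preimage continuous_subtype_val
  have hB'k : IsCompact B' := hB'c.isCompact
  have hcomp : ∀ y ∈ connectedComponent x, y ∉ B' := by
    intro y hy hyB
    have h1 : IsPreconnected ((↑) '' (connectedComponent x) : Set ℂ) :=
      isPreconnected_connectedComponent.image _ continuous_subtype_val.continuousOn
    have h2 : ((↑) '' (connectedComponent x) : Set ℂ) ⊆ connectedComponentIn I z := by
      apply h1.subset_connectedComponentIn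
      · exact ⟨x, mem_connectedComponent, rfl⟩
      · rintro _ ⟨w, -, rfl⟩
        exact w.2.1
    have h3 : (y : ℂ) ∈ connectedComponentIn I z := h2 ⟨y, hy, rfl⟩
    rcases hyB with h | h
    · exact hdisj _ h3 h
    · have := hr h3
      rw [Metric.mem_ball] at this
      rw [Metric.mem_sphere] at h
      exact absurd h this.ne
  let U : {s : Set X // IsClopen s ∧ x ∈ s} → Set X := fun s => (s : Set X)ᶜ
  have : Nonempty {s : Set X // IsClopen s ∧ x ∈ s} := ⟨⟨univ, isClopen_univ, mem_univ _⟩⟩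
  obtain ⟨s, hs⟩ := hB'k.elim_directed_cover U (fun s => s.2.1.compl.isOpen) (by
    intro y hy
    by_contra hcon
    simp only [U, mem_iUnion, mem_compl_iff, not_exists, not_not] at hcon
    have : y ∈ connectedComponent x := by
      rw [connectedComponent_eq_iInter_isClopen, mem_iInter]
      exact hcon
    exact hcomp y this hy) (by
    intro s t
    refine ⟨⟨s ∩ t, s.2.1.inter t.2.1, s.2.2, t.2.2⟩, ?_, ?_⟩
    · exact compl_subset_compl.2 inter_subset_left
    · exact compl_subset_compl.2 inter_subset_right)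
  obtain ⟨V0, hV0, hsV⟩ := isOpen_induced_iff.1 s.2.1.isOpen
  have hkey : I ∩ (V0 ∩ Metric.ball 0 r) = (↑) '' (s : Set X) := by
    ext w
    constructor
    · rintro ⟨hwI, hwV, hwb⟩
      refine ⟨⟨w, hwI, Metric.ball_subset_closedBall hwb⟩, ?_, rfl⟩
      rw [← hsV]
      exact hwV
    · rintro ⟨y, hy, rfl⟩
      refine ⟨y.2.1, ?_, ?_⟩
      · rw [← hsV] at hy
        exact hy
      · have hyB : y ∉ B' := fun h => hs h hy
        have h1 : ‖(y : ℂ)‖ ≤ r := by simpa using y.2.2
        have h2 : ‖(y : ℂ)‖ ≠ r := by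
          intro h
          exact hyB (Or.inr (by simpa using h))
        simpa using lt_of_le_of_ne h1 h2
  refine ⟨V0 ∩ Metric.ball 0 r, hV0.inter Metric.isOpen_ball, ?_, ?_, ?_⟩
  · rw [hkey]
    exact (s.2.1.isClosed.isCompact).image continuous_subtype_val
  · have : (x : ℂ) ∈ I ∩ (V0 ∩ Metric.ball 0 r) := by
      rw [hkey]; exact ⟨x, s.2.2, rfl⟩
    exact this.2
  · intro w hw hwB
    rw [hkey] at hw
    obtain ⟨y, hy, rfl⟩ := hw
    exact hs (show y ∈ B' from Or.inl hwB) hy

/-! ### The derivative -/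

/-- The derivative of `P / Q` off the zeros of `Q`. -/
noncomputable def gg (P Q : ℂ[X]) (z : ℂ) : ℂ :=
  (derivative P * Q - P * derivative Q).eval z / (Q.eval z) ^ 2

theorem deriv_quot (P Q : ℂ[X]) (z : ℂ) (hz : Q.eval z ≠ 0) :
    deriv (fun w => P.eval w / Q.eval w) z = gg P Q z := by
  have h := (P.hasDerivAt z).fun_div (Q.hasDerivAt z) hz
  rw [h.deriv, gg]
  simp

theorem gg_analyticAt (P Q : ℂ[X]) (z : ℂ) (hz : Q.eval z ≠ 0) : AnalyticAt ℂ (gg P Q) z := by
  have h1 : ∀ p : ℂ[X], AnalyticAt ℂ (fun z => p.eval z) z := fun p =>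
    p.differentiable.analyticAt z
  unfold gg
  exact (h1 _).div ((h1 Q).pow 2) (pow_ne_zero 2 hz)

theorem nonconst (P Q : ℂ[X]) (hPQ : IsCoprime P Q) (hQ : Q ≠ 0) (p : ℂ) (hp : Q.eval p = 0)
    (c : ℂ) : derivative P * Q - P * derivative Q ≠ C c * Q ^ 2 := by
  intro h
  have h1 : Q ∣ P * derivative Q := ⟨derivative P - C c * Q, by linear_combination -h⟩
  have h2 : Q ∣ derivative Q := hPQ.symm.dvd_of_dvd_mul_left h1
  have h3 : derivative Q = 0 := by
    by_contra hne
    have h4 := Polynomial.natDegree_le_of_dvd h2 hne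
    have h5 : Q.natDegree ≠ 0 := by
      intro h0
      rw [natDegree_eq_zero] at h0
      obtain ⟨a, rfl⟩ := h0
      simp at hne
    exact absurd (Polynomial.natDegree_derivative_lt h5) (not_lt.2 h4)
  have h6 : Q.natDegree = 0 := Polynomial.derivative_eq_zero.1 h3
  rw [natDegree_eq_zero] at h6
  obtain ⟨a, rfl⟩ := h6
  simp only [eval_C] at hp
  exact hQ (by rw [hp]; simp)

/-- No local extremum of the real function `R'` on `I_R`. -/
theorem no_max (P Q : ℂ[X]) (hPQ : IsCoprime P Q) (hQ : Q ≠ 0) (p : ℂ) (hp : Q.eval p = 0)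
    (σ : ℝ) (hσ : σ = 1 ∨ σ = -1) (V : Set ℂ) (z0 : ℂ) (hV : V ∈ 𝓝 z0) (hQz : Q.eval z0 ≠ 0)
    (him : (gg P Q z0).im = 0)
    (hmax : ∀ z ∈ V, Q.eval z ≠ 0 → (gg P Q z).im = 0 → σ * (gg P Q z).re ≤ σ * (gg P Q z0).re) :
    False := by
  rcases (gg_analyticAt P Q z0 hQz).eventually_constant_or_nhds_le_map_nhds with h | h
  · -- constant case
    apply nonconst P Q hPQ hQ p hp (gg P Q z0)
    apply Polynomial.eq_of_infinite_eval_eq
    have hne : ∀ᶠ z in 𝓝 z0, Q.eval z ≠ 0 := Q.continuous.continuousAt.eventually_ne hQz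
    have hmem : {x | eval x (derivative P * Q - P * derivative Q) =
        eval x (C (gg P Q z0) * Q ^ 2)} ∈ 𝓝 z0 := by
      filter_upwards [h, hne] with z h1 h2
      rw [← h1]
      simp only [gg, eval_mul, eval_C, eval_pow]
      rw [div_mul_cancel₀ _ (pow_ne_zero 2 h2)]
    exact infinite_of_mem_nhds z0 hmem
  · have hne : ∀ᶠ z in 𝓝 z0, Q.eval z ≠ 0 := Q.continuous.continuousAt.eventually_ne hQz
    have h1 : (gg P Q) '' (V ∩ {z | Q.eval z ≠ 0}) ∈ 𝓝 (gg P Q z0) :=
      h (Filter.image_mem_map (Filter.inter_mem hV hne))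
    obtain ⟨ε, hε, hball⟩ := Metric.mem_nhds_iff.1 h1
    have h2 : gg P Q z0 + ((σ * (ε / 2) : ℝ) : ℂ) ∈ Metric.ball (gg P Q z0) ε := by
      rw [Metric.mem_ball, dist_eq_norm]
      simp only [add_sub_cancel_left, Complex.norm_real, Real.norm_eq_abs, abs_mul]
      have : |σ| = 1 := by rcases hσ with h | h <;> simp [h]
      rw [this, one_mul, abs_of_pos (by positivity)]
      linarith
    obtain ⟨z, ⟨hzV, hzQ⟩, hz⟩ := hball h2
    have h3 := hmax z hzV hzQ (by rw [hz]; simp [him])
    rw [hz] at h3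
    simp only [Complex.add_re, Complex.ofReal_re] at h3
    have h4 : σ * σ = 1 := by rcases hσ with h | h <;> simp [h]
    have h5 : σ * ((gg P Q z0).re + σ * (ε / 2)) = σ * (gg P Q z0).re + (σ * σ) * (ε / 2) := by ring
    rw [h5, h4] at h3
    linarith


/-! ### The real locus -/

theorem mem_realLocus (R : RatFunc ℂ) (z : ℂ) :
    z ∈ realLocus R ↔ R.denom.eval z = 0 ∨ (gg R.num R.denom z).im = 0 := by
  unfold realLocus
  by_cases hz : R.denom.eval z = 0
  · simp [hz]
  · have : deriv (value R) z = gg R.num R.denom z := deriv_quot _ _ z hz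
    simp [this]

theorem isClosed_realLocus (R : RatFunc ℂ) : IsClosed (realLocus R) := by
  have h : realLocus R = {z | ((derivative R.num * R.denom - R.num * derivative R.denom).eval z *
      (starRingEnd ℂ) ((R.denom.eval z) ^ 2)).im = 0} := by
    ext z
    rw [mem_realLocus]
    change _ ↔ ((derivative R.num * R.denom - R.num * derivative R.denom).eval z *
      (starRingEnd ℂ) ((R.denom.eval z) ^ 2)).im = 0
    by_cases hz : R.denom.eval z = 0
    · simp [hz]
    · simp only [hz, false_or, gg]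
      have hq : (R.denom.eval z) ^ 2 ≠ 0 := pow_ne_zero 2 hz
      have hn : Complex.normSq ((R.denom.eval z) ^ 2) ≠ 0 := by
        rwa [Ne, Complex.normSq_eq_zero]
      have h1 : ((derivative R.num * R.denom - R.num * derivative R.denom).eval z /
          (R.denom.eval z) ^ 2) = ((derivative R.num * R.denom - R.num * derivative R.denom).eval z *
          (starRingEnd ℂ) ((R.denom.eval z) ^ 2)) / (Complex.normSq ((R.denom.eval z) ^ 2) : ℂ) := by
        rw [Complex.normSq_eq_conj_mul_self, mul_comm ((starRingEnd ℂ) _) ((R.denom.eval z) ^ 2)]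
        rw [mul_div_mul_right]
        rwa [Ne, map_eq_zero]
      rw [h1, Complex.div_ofReal_im, div_eq_zero_iff]
      exact or_iff_left hn
  rw [h]
  have hc : Continuous fun z : ℂ => ((derivative R.num * R.denom -
      R.num * derivative R.denom).eval z * (starRingEnd ℂ) ((R.denom.eval z) ^ 2)).im :=
    Complex.continuous_im.comp ((Polynomial.continuous _).mul
      (Complex.continuous_conj.comp ((Polynomial.continuous _).pow 2)))
  exact isClosed_eq hc continuous_const

theorem comp_has_pole (R : RatFunc ℂ) (p0 : ℂ) (hp0 : R.denom.eval p0 = 0) (C : Set ℂ)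
    (hC : C ∈ boundedComponents R) : ∃ p ∈ C, R.denom.eval p = 0 := by
  obtain ⟨⟨z, hz, rfl⟩, hb⟩ := hC
  by_contra hcon
  push Not at hcon
  obtain ⟨V, hVo, hK, hzV, hV⟩ := exists_piece (realLocus R) (isClosed_realLocus R) z hz hb
    {w | R.denom.eval w = 0} (isClosed_eq (Polynomial.continuous _) continuous_const) hcon
  have hcont : ContinuousOn (fun w => (gg R.num R.denom w).re) (realLocus R ∩ V) := by
    intro w hw
    exact (Complex.continuous_re.continuousAt.comp
      (gg_analyticAt _ _ w (hV w hw)).continuousAt).continuousWithinAt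
  obtain ⟨z0, hz0, hmax⟩ := hK.exists_isMaxOn ⟨z, hz, hzV⟩ hcont
  refine no_max R.num R.denom (RatFunc.isCoprime_num_denom R) (RatFunc.denom_ne_zero R) p0 hp0
    1 (Or.inl rfl) V z0 (hVo.mem_nhds hz0.2) (hV z0 hz0) ?_ ?_
  · exact ((mem_realLocus R z0).1 hz0.1).resolve_left (hV z0 hz0)
  · intro w hwV hwQ hwim
    have := hmax (show w ∈ realLocus R ∩ V from ⟨(mem_realLocus R w).2 (Or.inr hwim), hwV⟩)
    simpa using this

/-! ### Behaviour at infinity -/

theorem eval_rev (f : ℂ[X]) (z : ℂ) (hz : z ≠ 0) :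
    f.reverse.eval z⁻¹ * z ^ f.natDegree = f.eval z := by
  have := invertibleOfNonzero hz
  have h := eval₂_reverse_mul_pow (RingHom.id ℂ) z f
  simpa [eval₂_eq_eval_map] using h

theorem asymp (P Q : ℂ[X]) (hQ : Q ≠ 0)
    (hW0 : derivative P * Q - P * derivative Q ≠ 0)
    (hdeg : (derivative P * Q - P * derivative Q).natDegree < (Q ^ 2).natDegree) :
    ∃ r0 : ℝ, 0 < r0 ∧ (∀ z : ℂ, r0 < ‖z‖ → Q.eval z ≠ 0 ∧ gg P Q z ≠ 0) ∧
      (∀ η : ℝ, 0 < η → ∃ r : ℝ, ∀ z : ℂ, r < ‖z‖ → ‖gg P Q z‖ < η) ∧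
      (∀ r : ℝ, r0 < r → ∃ z : ℂ, ‖z‖ = r ∧ (gg P Q z).im = 0) := by
  set W := derivative P * Q - P * derivative Q with hW
  set N := Q ^ 2 with hN
  have hN0 : N ≠ 0 := pow_ne_zero 2 hQ
  set q := N.natDegree - W.natDegree with hq
  have hq1 : 0 < q := by omega
  let ψ : ℂ → ℂ := fun u => W.reverse.eval u / N.reverse.eval u
  set a := W.leadingCoeff / N.leadingCoeff with ha
  have ha0 : a ≠ 0 := div_ne_zero (leadingCoeff_ne_zero.2 hW0) (leadingCoeff_ne_zero.2 hN0)
  have hψ0 : ψ 0 = a := by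
    simp only [ψ, ha]
    rw [← coeff_zero_eq_eval_zero, ← coeff_zero_eq_eval_zero, coeff_zero_reverse,
      coeff_zero_reverse]
  have hNr0 : N.reverse.eval 0 ≠ 0 := by
    rw [← coeff_zero_eq_eval_zero, coeff_zero_reverse]
    exact leadingCoeff_ne_zero.2 hN0
  have hψc : ContinuousAt ψ 0 :=
    (Polynomial.continuous _).continuousAt.div (Polynomial.continuous _).continuousAt hNr0
  have hg : ∀ z : ℂ, z ≠ 0 → gg P Q z = ψ z⁻¹ / z ^ q := by
    intro z hz
    have h1 : W.eval z = W.reverse.eval z⁻¹ * z ^ W.natDegree := (eval_rev W z hz).symm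
    have h2 : (Q.eval z) ^ 2 = N.reverse.eval z⁻¹ * z ^ N.natDegree := by
      rw [eval_rev N z hz, hN, eval_pow]
    have h3 : z ^ N.natDegree = z ^ W.natDegree * z ^ q := by
      rw [← pow_add]; congr 1; omega
    unfold gg
    rw [← hW, h1, h2, h3]
    simp only [ψ]
    rw [div_div, ← mul_assoc, mul_right_comm (eval z⁻¹ N.reverse)]
    rw [mul_div_mul_right _ _ (pow_ne_zero _ hz)]
  have hev : ∀ᶠ u in 𝓝 (0 : ℂ), N.reverse.eval u ≠ 0 ∧ ‖ψ u - a‖ < ‖a‖ / 2 := by
    refine ((Polynomial.continuous _).continuousAt.eventually_ne hNr0).and ?_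
    have h1 : Filter.Tendsto ψ (𝓝 0) (𝓝 a) := by
      rw [← hψ0]; exact hψc
    have h2 := Metric.tendsto_nhds.1 h1 (‖a‖ / 2) (by positivity)
    simpa [dist_eq_norm] using h2
  obtain ⟨δ, hδ, hδ'⟩ := Metric.eventually_nhds_iff.1 hev
  have hinv : ∀ z : ℂ, 1 / δ < ‖z‖ → dist z⁻¹ 0 < δ := by
    intro z hz
    rw [dist_zero_right, norm_inv]
    rw [one_div] at hz
    exact inv_lt_of_inv_lt₀ hδ hz
  have hz0 : ∀ z : ℂ, 1 / δ < ‖z‖ → z ≠ 0 := by
    rintro z hz rfl
    simp only [norm_zero] at hz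
    exact absurd hz (not_lt.2 (by positivity))
  have hψne : ∀ u : ℂ, ‖ψ u - a‖ < ‖a‖ / 2 → ψ u ≠ 0 := by
    intro u hu h0
    rw [h0, zero_sub, norm_neg] at hu
    have : 0 < ‖a‖ := norm_pos_iff.2 ha0
    linarith
  refine ⟨1 / δ, by positivity, ?_, ?_, ?_⟩
  · intro z hz
    have h := hδ' (hinv z hz)
    constructor
    · intro h0
      have h2 := eval_rev N z (hz0 z hz)
      rw [hN, eval_pow, h0] at h2
      rw [zero_pow two_ne_zero] at h2
      rcases mul_eq_zero.1 h2 with h3 | h3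
      · exact h.1 h3
      · exact pow_ne_zero _ (hz0 z hz) h3
    · rw [hg z (hz0 z hz)]
      exact div_ne_zero (hψne _ h.2) (pow_ne_zero _ (hz0 z hz))
  · intro η hη
    refine ⟨max (1 / δ) (max 1 (2 * ‖a‖ / η)), ?_⟩
    intro z hz
    have h1 : 1 / δ < ‖z‖ := lt_of_le_of_lt (le_max_left _ _) hz
    have h2 : 1 < ‖z‖ := lt_of_le_of_lt ((le_max_left _ _).trans (le_max_right _ _)) hz
    have h3 : 2 * ‖a‖ / η < ‖z‖ := lt_of_le_of_lt ((le_max_right _ _).trans (le_max_right _ _)) hz
    rw [hg z (hz0 z h1), norm_div, norm_pow]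
    have h4 := (hδ' (hinv z h1)).2
    have h5 : ‖ψ z⁻¹‖ ≤ 2 * ‖a‖ := by
      have : ‖ψ z⁻¹‖ ≤ ‖ψ z⁻¹ - a‖ + ‖a‖ := by
        simpa using norm_add_le (ψ z⁻¹ - a) a
      have ha' : 0 < ‖a‖ := norm_pos_iff.2 ha0
      linarith
    have h6 : ‖z‖ ≤ ‖z‖ ^ q := by
      calc ‖z‖ = ‖z‖ ^ 1 := (pow_one _).symm
        _ ≤ ‖z‖ ^ q := pow_le_pow_right₀ h2.le hq1
    have h7 : 0 < ‖z‖ := by linarith
    rw [div_lt_iff₀ (by positivity)]
    rw [div_lt_iff₀ hη] at h3
    calc ‖ψ z⁻¹‖ ≤ 2 * ‖a‖ := h5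
      _ < ‖z‖ * η := h3
      _ ≤ ‖z‖ ^ q * η := by gcongr
      _ = η * ‖z‖ ^ q := mul_comm _ _
  · intro r hr
    have hr0 : 0 < r := lt_trans (by positivity) hr
    have haN : 0 < ‖a‖ := norm_pos_iff.2 ha0
    -- a point of the circle with prescribed sign
    have key : ∀ τ : ℝ, (τ = 1 ∨ τ = -1) → ∃ z : ℂ, ‖z‖ = r ∧ 0 < τ * (gg P Q z).im := by
      intro τ hτ
      have hτ2 : τ * τ = 1 := by rcases hτ with h | h <;> simp [h]
      have hτ0 : τ ≠ 0 := by rcases hτ with h | h <;> simp [h]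
      have hτa : |τ| = 1 := by rcases hτ with h | h <;> simp [h]
      obtain ⟨ζ, hζ⟩ := IsAlgClosed.exists_pow_nat_eq (a / (τ * ‖a‖ * Complex.I)) hq1
      have hden : (τ * ‖a‖ * Complex.I : ℂ) ≠ 0 := by
        refine mul_ne_zero (mul_ne_zero ?_ ?_) Complex.I_ne_zero
        · exact_mod_cast hτ0
        · exact_mod_cast haN.ne'
      have hζn : ‖ζ‖ = 1 := by
        have h1 : ‖ζ‖ ^ q = 1 := by
          rw [← norm_pow, hζ, norm_div, norm_mul, norm_mul]
          simp [hτa, haN.ne']
        exact (pow_eq_one_iff_of_nonneg (norm_nonneg _) hq1.ne').1 h1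
      have hζ0 : ζ ≠ 0 := by
        intro h; rw [h, norm_zero] at hζn; exact zero_ne_one hζn
      refine ⟨r * ζ, by simp [hζn, abs_of_pos hr0], ?_⟩
      have hzn : ‖(r * ζ : ℂ)‖ = r := by simp [hζn, abs_of_pos hr0]
      have hz1 : 1 / δ < ‖(r * ζ : ℂ)‖ := by rw [hzn]; exact hr
      have h2 := (hδ' (hinv _ hz1)).2
      rw [hg _ (hz0 _ hz1)]
      set u := ψ (r * ζ : ℂ)⁻¹ with hu
      have h3 : u / (r * ζ : ℂ) ^ q = ((1 / r ^ q : ℝ) : ℂ) * (u / ζ ^ q) := by
        rw [mul_pow]
        push_cast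
        have : (r : ℂ) ≠ 0 := by exact_mod_cast hr0.ne'
        field_simp
      have h4 : u / ζ ^ q = τ * ‖a‖ * Complex.I + (u - a) / ζ ^ q := by
        have hζq : ζ ^ q ≠ 0 := pow_ne_zero _ hζ0
        have h5 : a = (τ * ‖a‖ * Complex.I) * ζ ^ q := by
          rw [hζ, mul_div_cancel₀ _ hden]
        rw [sub_div]
        have h6 : a / ζ ^ q = τ * ‖a‖ * Complex.I := by
          rw [div_eq_iff hζq]; exact h5
        rw [h6]; ring
      rw [h3, Complex.im_ofReal_mul, h4, Complex.add_im]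
      have h7 : ((τ * ‖a‖ * Complex.I : ℂ)).im = τ * ‖a‖ := by simp
      have h8 : |((u - a) / ζ ^ q).im| < ‖a‖ / 2 := by
        refine lt_of_le_of_lt (Complex.abs_im_le_norm _) ?_
        rw [norm_div, norm_pow, hζn, one_pow, div_one]
        exact h2
      rw [h7]
      have h9 : 0 < 1 / r ^ q := by positivity
      have h10 : τ * (1 / r ^ q * (τ * ‖a‖ + ((u - a) / ζ ^ q).im)) =
          1 / r ^ q * ((τ * τ) * ‖a‖ + τ * ((u - a) / ζ ^ q).im) := by ring
      rw [h10, hτ2]
      apply mul_pos h9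
      have h11 : |τ * ((u - a) / ζ ^ q).im| < ‖a‖ / 2 := by
        rw [abs_mul, hτa, one_mul]; exact h8
      have h12 := neg_abs_le (τ * ((u - a) / ζ ^ q).im)
      linarith
    obtain ⟨z1, hz1, h1⟩ := key 1 (Or.inl rfl)
    obtain ⟨z2, hz2, h2⟩ := key (-1) (Or.inr rfl)
    have hrank : 1 < Module.rank ℝ ℂ := by rw [Complex.rank_real_complex]; norm_num
    have hcont : ContinuousOn (fun w => (gg P Q w).im) (Metric.sphere (0 : ℂ) r) := by
      intro w hw
      have hwn : ‖w‖ = r := by simpa using hw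
      have hw1 : 1 / δ < ‖w‖ := by rw [hwn]; exact hr
      have h0 : Q.eval w ≠ 0 := by
        intro h0
        have h2 := eval_rev N w (hz0 w hw1)
        rw [hN, eval_pow, h0] at h2
        rw [zero_pow two_ne_zero] at h2
        rcases mul_eq_zero.1 h2 with h3 | h3
        · exact (hδ' (hinv w hw1)).1 h3
        · exact pow_ne_zero _ (hz0 w hw1) h3
      exact (Complex.continuous_im.continuousAt.comp
        (gg_analyticAt _ _ w h0).continuousAt).continuousWithinAt
    have himg := (isPreconnected_sphere hrank (0 : ℂ) r).intermediate_value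
      (show z2 ∈ Metric.sphere (0 : ℂ) r by simpa using hz2)
      (show z1 ∈ Metric.sphere (0 : ℂ) r by simpa using hz1) hcont
    have h0 : (0 : ℝ) ∈ Icc ((gg P Q z2).im) ((gg P Q z1).im) := by
      constructor <;> linarith
    obtain ⟨z, hz, hz'⟩ := himg h0
    exact ⟨z, by simpa using hz, hz'⟩


theorem exists_unbounded (R : RatFunc ℂ) (p0 : ℂ) (hp0 : R.denom.eval p0 = 0)
    (hd : R.num.natDegree ≤ R.denom.natDegree) :
    ∃ p, R.denom.eval p = 0 ∧
      ¬ Bornology.IsBounded (connectedComponentIn (realLocus R) p) := by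
  by_contra hcon
  push Not at hcon
  set P := R.num with hP
  set Q := R.denom with hQdef
  have hQ : Q ≠ 0 := RatFunc.denom_ne_zero R
  have hPQ : IsCoprime P Q := RatFunc.isCoprime_num_denom R
  set I := realLocus R with hI
  have hIc : IsClosed I := isClosed_realLocus R
  have hW0 : derivative P * Q - P * derivative Q ≠ 0 := by
    have := nonconst P Q hPQ hQ p0 hp0 0
    simpa using this
  have hQd : 0 < Q.natDegree := by
    rw [Nat.pos_iff_ne_zero]
    intro h0
    rw [natDegree_eq_zero] at h0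
    obtain ⟨a, ha⟩ := h0
    rw [← ha, eval_C] at hp0
    exact hQ (by rw [← ha, hp0, C_0])
  have hdeg : (derivative P * Q - P * derivative Q).natDegree < (Q ^ 2).natDegree := by
    rw [natDegree_pow]
    have h1 : (derivative P * Q).natDegree ≤ 2 * Q.natDegree - 1 := by
      refine natDegree_mul_le.trans ?_
      have := natDegree_derivative_le P
      omega
    have h2 : (P * derivative Q).natDegree ≤ 2 * Q.natDegree - 1 := by
      refine natDegree_mul_le.trans ?_
      have := natDegree_derivative_le Q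
      omega
    have h3 := (natDegree_sub_le (derivative P * Q) (P * derivative Q)).trans (max_le h1 h2)
    omega
  obtain ⟨r0, hr0, hA, hB, hC⟩ := asymp P Q hQ hW0 hdeg
  -- compact open pieces around the poles
  have hpiece : ∀ p : ℂ, ∃ V : Set ℂ, Q.eval p = 0 →
      (IsOpen V ∧ IsCompact (I ∩ V) ∧ p ∈ V) := by
    intro p
    by_cases hp : Q.eval p = 0
    · obtain ⟨V, h1, h2, h3, -⟩ := exists_piece I hIc p
        ((mem_realLocus R p).2 (Or.inl hp)) (hcon p hp) ∅ isClosed_empty (fun _ _ h => h)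
      exact ⟨V, fun _ => ⟨h1, h2, h3⟩⟩
    · exact ⟨∅, fun h => absurd h hp⟩
  choose V hV using hpiece
  let T : Finset ℂ := Q.roots.toFinset
  have hT : ∀ p, p ∈ T ↔ Q.eval p = 0 := by
    intro p
    simp only [T, Multiset.mem_toFinset, mem_roots hQ, IsRoot.def]
  let K : Set ℂ := ⋃ p ∈ T, (I ∩ V p)
  have hK : IsCompact K := T.isCompact_biUnion (fun p hp => (hV p ((hT p).1 hp)).2.1)
  let VV : Set ℂ := ⋃ p ∈ T, V p
  have hVVo : IsOpen VV := isOpen_biUnion (fun p hp => (hV p ((hT p).1 hp)).1)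
  have hKV : K = I ∩ VV := by
    simp only [K, VV, inter_iUnion]
  let J : Set ℂ := I \ VV
  have hJc : IsClosed J := hIc.sdiff hVVo
  have hJQ : ∀ z ∈ J, Q.eval z ≠ 0 := by
    intro z hz h0
    exact hz.2 (mem_biUnion ((hT z).2 h0) (hV z h0).2.2)
  have hJim : ∀ z ∈ J, (gg P Q z).im = 0 := fun z hz =>
    ((mem_realLocus R z).1 hz.1).resolve_left (hJQ z hz)
  obtain ⟨r1, hr1⟩ := hK.isBounded.subset_closedBall (0 : ℂ)
  obtain ⟨z1, hz1n, hz1im⟩ := hC (max r0 r1 + 1) (by
    have := le_max_left r0 r1; linarith)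
  have hz1r0 : r0 < ‖z1‖ := by rw [hz1n]; have := le_max_left r0 r1; linarith
  have hz1K : z1 ∉ K := by
    intro h
    have h1 := hr1 h
    rw [mem_closedBall_zero_iff, hz1n] at h1
    have := le_max_right r0 r1
    linarith
  have hz1I : z1 ∈ I := (mem_realLocus R z1).2 (Or.inr hz1im)
  have hz1J : z1 ∈ J := by
    refine ⟨hz1I, fun h => hz1K ?_⟩
    rw [hKV]; exact ⟨hz1I, h⟩
  have hz1g := (hA z1 hz1r0).2
  have hz1re : (gg P Q z1).re ≠ 0 := by
    intro h
    exact hz1g (Complex.ext h hz1im)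
  obtain ⟨σ, hσ, hσpos⟩ : ∃ σ : ℝ, (σ = 1 ∨ σ = -1) ∧ 0 < σ * (gg P Q z1).re := by
    rcases lt_or_gt_of_ne hz1re with h | h
    · exact ⟨-1, Or.inr rfl, by linarith⟩
    · exact ⟨1, Or.inl rfl, by linarith⟩
  obtain ⟨r2, hr2⟩ := hB (σ * (gg P Q z1).re) hσpos
  have hcpt : IsCompact (J ∩ Metric.closedBall 0 (max r2 ‖z1‖)) :=
    (isCompact_closedBall (0 : ℂ) _).inter_left hJc
  have hcont : ContinuousOn (fun w => σ * (gg P Q w).re)
      (J ∩ Metric.closedBall 0 (max r2 ‖z1‖)) := by
    intro w hw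
    exact (continuousAt_const.mul (Complex.continuous_re.continuousAt.comp
      (gg_analyticAt _ _ w (hJQ w hw.1)).continuousAt)).continuousWithinAt
  have hz1mem : z1 ∈ J ∩ Metric.closedBall 0 (max r2 ‖z1‖) :=
    ⟨hz1J, by rw [mem_closedBall_zero_iff]; exact le_max_right _ _⟩
  obtain ⟨z0, hz0, hmax⟩ := hcpt.exists_isMaxOn ⟨z1, hz1mem⟩ hcont
  refine no_max P Q hPQ hQ p0 hp0 σ hσ Kᶜ z0 (hK.isClosed.isOpen_compl.mem_nhds ?_)
    (hJQ z0 hz0.1) (hJim z0 hz0.1) ?_
  · intro h
    rw [hKV] at h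
    exact hz0.1.2 h.2
  · intro w hwK hwQ hwim
    have hwI : w ∈ I := (mem_realLocus R w).2 (Or.inr hwim)
    have hwJ : w ∈ J := by
      refine ⟨hwI, fun h => hwK ?_⟩
      rw [hKV]; exact ⟨hwI, h⟩
    by_cases hwr : ‖w‖ ≤ max r2 ‖z1‖
    · exact hmax (show w ∈ J ∩ Metric.closedBall 0 (max r2 ‖z1‖) from
        ⟨hwJ, by rw [mem_closedBall_zero_iff]; exact hwr⟩)
    · push Not at hwr
      have h1 := hr2 w (lt_of_le_of_lt (le_max_left _ _) hwr)
      have h2 : σ * (gg P Q w).re ≤ ‖gg P Q w‖ := by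
        calc σ * (gg P Q w).re ≤ |σ * (gg P Q w).re| := le_abs_self _
          _ = |(gg P Q w).re| := by
            rw [abs_mul]; rcases hσ with h | h <;> simp [h]
          _ ≤ ‖gg P Q w‖ := Complex.abs_re_le_norm _
      have h3 := hmax hz1mem
      exact (h2.trans h1.le).trans h3

/-! ### Upper bounds -/

theorem encard_le_of (R : RatFunc ℂ) (p0 : ℂ) (hp0 : R.denom.eval p0 = 0) (T : Finset ℂ)
    (hT : ∀ p, R.denom.eval p = 0 →
      Bornology.IsBounded (connectedComponentIn (realLocus R) p) → p ∈ T) :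
    (boundedComponents R).encard ≤ T.card := by
  classical
  have h : ∀ C : Set ℂ, ∃ p : ℂ, C ∈ boundedComponents R → p ∈ C ∧ R.denom.eval p = 0 := by
    intro C
    by_cases hC : C ∈ boundedComponents R
    · obtain ⟨p, h1, h2⟩ := comp_has_pole R p0 hp0 C hC
      exact ⟨p, fun _ => ⟨h1, h2⟩⟩
    · exact ⟨0, fun h => absurd h hC⟩
  choose f hf using h
  have heq : ∀ C ∈ boundedComponents R, C = connectedComponentIn (realLocus R) (f C) := by
    intro C hC
    obtain ⟨⟨z, hz, rfl⟩, -⟩ := id hC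
    exact connectedComponentIn_eq (hf _ hC).1
  rw [← Set.encard_coe_eq_coe_finsetCard]
  apply Set.encard_le_encard_of_injOn (f := f)
  · intro C hC
    have h1 := hT (f C) (hf C hC).2 (by rw [← heq C hC]; exact hC.2)
    exact h1
  · intro C hC C' hC' h
    rw [heq C hC, heq C' hC', h]


/-! ### Construction -/

theorem hasDerivAt_term (a p z : ℂ) (k : ℕ) (hz : z ≠ p) :
    HasDerivAt (fun w => a / (w - p) ^ k) (-(a * k) / (z - p) ^ (k + 1)) z := by
  have h0 : z - p ≠ 0 := sub_ne_zero.2 hz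
  have h1 : HasDerivAt (fun w : ℂ => (w - p) ^ k) (k * (z - p) ^ (k - 1) * 1) z :=
    ((hasDerivAt_id z).sub_const p).pow k
  have h2 := (hasDerivAt_const z a).fun_div h1 (pow_ne_zero k h0)
  refine h2.congr_deriv ?_
  rcases Nat.eq_zero_or_pos k with rfl | hk
  · simp
  · obtain ⟨j, rfl⟩ : ∃ j, k = j + 1 := ⟨k - 1, by omega⟩
    simp only [Nat.add_sub_cancel]
    field_simp
    ring

/-- The common denominator. -/
noncomputable def Qp (m : ℂ →₀ ℕ) : ℂ[X] := ∏ p ∈ m.support, (X - C p) ^ (m p)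

/-- The numerator of `A + ∑ a p / (z - p) ^ (m p)`. -/
noncomputable def Pp (m : ℂ →₀ ℕ) (A : ℂ[X]) (a : ℂ → ℂ) : ℂ[X] :=
  A * Qp m + ∑ p ∈ m.support, C (a p) * ∏ p' ∈ m.support.erase p, (X - C p') ^ (m p')

theorem Qp_monic (m : ℂ →₀ ℕ) : (Qp m).Monic :=
  monic_prod_of_monic _ _ (fun p _ => (monic_X_sub_C p).pow _)

theorem Qp_eval_ne (m : ℂ →₀ ℕ) (z : ℂ) (hz : z ∉ m.support) : (Qp m).eval z ≠ 0 := by
  rw [Qp, eval_prod, Finset.prod_ne_zero_iff]
  intro p hp
  rw [eval_pow, eval_sub, eval_X, eval_C]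
  exact pow_ne_zero _ (sub_ne_zero.2 (fun h => hz (h ▸ hp)))

theorem Qp_eval_eq (m : ℂ →₀ ℕ) (z : ℂ) (hz : z ∈ m.support) : (Qp m).eval z = 0 := by
  rw [Qp, eval_prod, Finset.prod_eq_zero hz]
  rw [eval_pow, eval_sub, eval_X, eval_C, sub_self]
  exact zero_pow (Finsupp.mem_support_iff.1 hz)

theorem Qp_eval_iff (m : ℂ →₀ ℕ) (z : ℂ) : (Qp m).eval z = 0 ↔ z ∈ m.support :=
  ⟨fun h => by_contra fun hz => Qp_eval_ne m z hz h, Qp_eval_eq m z⟩

theorem rest_eval_ne (m : ℂ →₀ ℕ) (p : ℂ) :
    (∏ p' ∈ m.support.erase p, (X - C p') ^ (m p')).eval p ≠ 0 := by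
  rw [eval_prod, Finset.prod_ne_zero_iff]
  intro p' hp'
  rw [eval_pow, eval_sub, eval_X, eval_C]
  exact pow_ne_zero _ (sub_ne_zero.2 (Finset.ne_of_mem_erase hp').symm)

theorem Qp_rootMultiplicity (m : ℂ →₀ ℕ) (p : ℂ) : (Qp m).rootMultiplicity p = m p := by
  classical
  by_cases hp : p ∈ m.support
  · have h : Qp m = (X - C p) ^ (m p) * ∏ p' ∈ m.support.erase p, (X - C p') ^ (m p') := by
      exact (Finset.mul_prod_erase m.support (fun p' => (X - C p') ^ (m p')) hp).symm
    have hne : (X - C p) ^ (m p) * ∏ p' ∈ m.support.erase p, (X - C p') ^ (m p') ≠ 0 := by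
      rw [← h]; exact (Qp_monic m).ne_zero
    rw [h, rootMultiplicity_mul hne, rootMultiplicity_X_sub_C_pow,
      rootMultiplicity_eq_zero (rest_eval_ne m p), add_zero]
  · rw [rootMultiplicity_eq_zero (Qp_eval_ne m p hp)]
    exact (Finsupp.notMem_support_iff.1 hp).symm

theorem Pp_eval_pole (m : ℂ →₀ ℕ) (A : ℂ[X]) (a : ℂ → ℂ) (p : ℂ) (hp : p ∈ m.support)
    (ha : a p ≠ 0) : (Pp m A a).eval p ≠ 0 := by
  classical
  rw [Pp, eval_add, eval_mul, Qp_eval_eq m p hp, mul_zero, zero_add, eval_finsetSum,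
    Finset.sum_eq_single p]
  · rw [eval_mul, eval_C]
    exact mul_ne_zero ha (rest_eval_ne m p)
  · intro q hq hqp
    rw [eval_mul, eval_prod, Finset.prod_eq_zero (Finset.mem_erase.2 ⟨hqp.symm, hp⟩), mul_zero]
    rw [eval_pow, eval_sub, eval_X, eval_C, sub_self]
    exact zero_pow (Finsupp.mem_support_iff.1 hp)
  · intro h; exact absurd hp h

theorem coprime_Pp_Qp (m : ℂ →₀ ℕ) (A : ℂ[X]) (a : ℂ → ℂ) (ha : ∀ p ∈ m.support, a p ≠ 0) :
    IsCoprime (Pp m A a) (Qp m) := by
  rw [Qp]
  apply IsCoprime.prod_right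
  intro p hp
  apply IsCoprime.pow_right
  rw [isCoprime_comm, (irreducible_X_sub_C p).coprime_iff_not_dvd, dvd_iff_isRoot]
  exact Pp_eval_pole m A a p hp (ha p hp)

theorem quot_eq (m : ℂ →₀ ℕ) (A : ℂ[X]) (a : ℂ → ℂ) (z : ℂ) (hz : z ∉ m.support) :
    (Pp m A a).eval z / (Qp m).eval z =
      A.eval z + ∑ p ∈ m.support, a p / (z - p) ^ (m p) := by
  classical
  have hQ := Qp_eval_ne m z hz
  rw [Pp, eval_add, eval_mul, add_div, mul_div_cancel_right₀ _ hQ, eval_finsetSum,
    Finset.sum_div]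
  congr 1
  apply Finset.sum_congr rfl
  intro p hp
  have h : (Qp m).eval z = (z - p) ^ (m p) *
      (∏ p' ∈ m.support.erase p, (X - C p') ^ (m p')).eval z := by
    rw [Qp, ← Finset.mul_prod_erase _ _ hp, eval_mul, eval_pow, eval_sub, eval_X, eval_C]
  rw [eval_mul, eval_C, h]
  rw [h] at hQ
  exact mul_div_mul_right _ _ (right_ne_zero_of_mul hQ)

theorem gg_eq (m : ℂ →₀ ℕ) (A : ℂ[X]) (a : ℂ → ℂ) (z : ℂ) (hz : z ∉ m.support) :
    gg (Pp m A a) (Qp m) z =
      (derivative A).eval z - ∑ p ∈ m.support, a p * m p / (z - p) ^ (m p + 1) := by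
  rw [← deriv_quot _ _ _ (Qp_eval_ne m z hz)]
  have hop : ∀ᶠ w in 𝓝 z, w ∉ m.support := by
    have : IsOpen ((m.support : Set ℂ)ᶜ) := m.support.finite_toSet.isClosed.isOpen_compl
    exact this.mem_nhds hz
  have heq : (fun w => (Pp m A a).eval w / (Qp m).eval w) =ᶠ[𝓝 z]
      fun w => A.eval w + ∑ p ∈ m.support, a p / (w - p) ^ (m p) := by
    filter_upwards [hop] with w hw
    exact quot_eq m A a w hw
  rw [heq.deriv_eq]
  have h1 : HasDerivAt (fun w => A.eval w + ∑ p ∈ m.support, a p / (w - p) ^ (m p))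
      ((derivative A).eval z + ∑ p ∈ m.support, -(a p * m p) / (z - p) ^ (m p + 1)) z := by
    apply (A.hasDerivAt z).add
    apply HasDerivAt.fun_sum
    intro p hp
    exact hasDerivAt_term (a p) p z (m p) (fun h => hz (h ▸ hp))
  rw [h1.deriv]
  simp only [neg_div, Finset.sum_neg_distrib, sub_eq_add_neg]

theorem exists_ratFunc (P Q : ℂ[X]) (hPQ : IsCoprime P Q) (hQ : Q.Monic) :
    ∃ R : RatFunc ℂ, R.num = P ∧ R.denom = Q := by
  refine ⟨algebraMap _ _ P / algebraMap _ _ Q, ?_⟩
  set R : RatFunc ℂ := algebraMap _ _ P / algebraMap _ _ Q with hR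
  have h : R.num * Q = P * R.denom := (RatFunc.num_mul_eq_mul_denom_iff hQ.ne_zero).2 hR
  have hc := RatFunc.isCoprime_num_denom R
  have h1 : R.denom ∣ Q := hc.symm.dvd_of_dvd_mul_left ⟨P, by rw [h, mul_comm]⟩
  have h2 : Q ∣ R.denom := hPQ.symm.dvd_of_dvd_mul_left ⟨R.num, by rw [← h, mul_comm]⟩
  have h3 : R.denom = Q :=
    Polynomial.eq_of_monic_of_associated (RatFunc.monic_denom R) hQ (associated_of_dvd_dvd h1 h2)
  refine ⟨?_, h3⟩
  rw [h3] at h
  exact mul_right_cancel₀ hQ.ne_zero h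

theorem Pp_sub_natDegree (m : ℂ →₀ ℕ) (A : ℂ[X]) (a : ℂ → ℂ) (k : ℕ)
    (hA : (k = 0 ∧ A = 0) ∨ (0 < k ∧ A.natDegree = k)) :
    (Pp m A a).natDegree - (Qp m).natDegree = k := by
  classical
  have hsum : (∑ p ∈ m.support, C (a p) * ∏ p' ∈ m.support.erase p, (X - C p') ^ (m p')).natDegree
      ≤ (Qp m).natDegree := by
    apply natDegree_sum_le_of_forall_le
    intro p hp
    refine (natDegree_C_mul_le _ _).trans ?_
    apply natDegree_le_of_dvd _ (Qp_monic m).ne_zero
    refine ⟨(X - C p) ^ (m p), ?_⟩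
    rw [mul_comm]
    exact (Finset.mul_prod_erase m.support (fun p' => (X - C p') ^ (m p')) hp).symm
  rcases hA with ⟨rfl, rfl⟩ | ⟨hk, hA⟩
  · rw [Pp, zero_mul, zero_add]
    omega
  · have h1 : (A * Qp m).natDegree = k + (Qp m).natDegree := by
      rw [natDegree_mul _ (Qp_monic m).ne_zero, hA]
      rintro rfl
      simp at hA
      omega
    rw [Pp, natDegree_add_eq_left_of_natDegree_lt (by omega), h1]
    omega


theorem continuousAt_term (a p z : ℂ) (k : ℕ) (hz : z ≠ p) :
    ContinuousAt (fun w : ℂ => a / (w - p) ^ k) z :=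
  (hasDerivAt_term a p z k hz).continuousAt

theorem loops (m : ℂ →₀ ℕ) (S' : Finset ℂ) (hS' : S' ⊆ m.support) (A : ℂ[X]) (b : ℂ → ℂ)
    (hb : ∀ p ∈ m.support, p ∉ S' → b p ≠ 0)
    (hB : ∀ p ∈ S', ((derivative A).eval p -
      ∑ q ∈ m.support \ S', b q * m q / (p - q) ^ (m q + 1)).im ≠ 0) :
    ∃ R : RatFunc ℂ, (∃ a : ℂ → ℂ, (∀ p ∈ m.support, a p ≠ 0) ∧ R.num = Pp m A a ∧
      R.denom = Qp m) ∧ (S'.card : ℕ∞) ≤ (boundedComponents R).encard := by
  classical
  let B : ℂ → ℂ := fun z => (derivative A).eval z -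
    ∑ q ∈ m.support \ S', b q * m q / (z - q) ^ (m q + 1)
  let G : ℂ → ℂ := fun z => ∑ q ∈ S', (m q : ℂ) / (z - q) ^ (m q + 1)
  have hBc : ∀ z, z ∉ m.support \ S' → ContinuousAt B z := by
    intro z hz
    refine (Polynomial.continuous _).continuousAt.sub ?_
    refine tendsto_finsetSum _ (fun q hq => ?_)
    exact continuousAt_term _ q z _ (fun h => hz (h ▸ hq))
  have hGc : ∀ z, z ∉ S' → ContinuousAt G z := by
    intro z hz
    refine tendsto_finsetSum _ (fun q hq => ?_)
    exact continuousAt_term _ q z _ (fun h => hz (h ▸ hq))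
  -- a good radius
  have hrad : ∃ δ : ℝ, 0 < δ ∧ ∀ p ∈ S', ∀ z ∈ Metric.closedBall p δ,
      (z ∈ m.support → z = p) ∧ (B z).im ≠ 0 := by
    have h1 : ∀ p ∈ S', ∀ᶠ δ in 𝓝[>] (0 : ℝ), ∀ z ∈ Metric.closedBall p δ,
        (z ∈ m.support → z = p) ∧ (B z).im ≠ 0 := by
      intro p hp
      have h2 : ∀ᶠ z in 𝓝 p, (z ∈ m.support → z = p) ∧ (B z).im ≠ 0 := by
        refine Filter.Eventually.and ?_ ?_
        · have hop : IsOpen (((m.support.erase p : Finset ℂ) : Set ℂ)ᶜ) :=
            (m.support.erase p).finite_toSet.isClosed.isOpen_compl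
          have hmem : p ∈ (((m.support.erase p : Finset ℂ) : Set ℂ)ᶜ) := by simp
          filter_upwards [hop.mem_nhds hmem] with z hz hzS
          by_contra hne
          exact hz (Finset.mem_coe.2 (Finset.mem_erase.2 ⟨hne, hzS⟩))
        · have hp' : p ∉ m.support \ S' := fun h => (Finset.mem_sdiff.1 h).2 hp
          have hc : ContinuousAt (fun z => (B z).im) p :=
            Complex.continuous_im.continuousAt.comp (hBc p hp')
          exact hc.eventually_ne (hB p hp)
      obtain ⟨ε, hε, hball⟩ := Metric.eventually_nhds_iff.1 h2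
      filter_upwards [Ioo_mem_nhdsGT hε] with δ hδ z hz
      exact hball (lt_of_le_of_lt (Metric.mem_closedBall.1 hz) hδ.2)
    have h3 : ∀ᶠ δ in 𝓝[>] (0 : ℝ), ∀ p ∈ S', ∀ z ∈ Metric.closedBall p δ,
        (z ∈ m.support → z = p) ∧ (B z).im ≠ 0 :=
      (Filter.eventually_all_finset S').2 h1
    obtain ⟨δ, h4, h5⟩ := (h3.and self_mem_nhdsWithin).exists
    exact ⟨δ, h5, h4⟩
  obtain ⟨δ, hδ, hδ'⟩ := hrad
  let T : Set ℂ := ⋃ p ∈ S', Metric.sphere p δ
  have hT : IsCompact T := S'.isCompact_biUnion (fun p _ => isCompact_sphere p δ)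
  have hTS : ∀ z ∈ T, z ∉ m.support ∧ (B z).im ≠ 0 := by
    intro z hz
    obtain ⟨p, hp, hzp⟩ := mem_iUnion₂.1 hz
    have h1 := hδ' p hp z (Metric.sphere_subset_closedBall hzp)
    refine ⟨fun h => ?_, h1.2⟩
    have := h1.1 h
    rw [this, Metric.mem_sphere, dist_self] at hzp
    exact hδ.ne hzp
  have hcont : ContinuousOn (fun z => G z / ((B z).im : ℂ)) T := by
    intro z hz
    obtain ⟨h1, h2⟩ := hTS z hz
    refine ContinuousAt.continuousWithinAt (ContinuousAt.div ?_ ?_ ?_)
    · exact hGc z (fun h => h1 (hS' h))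
    · exact Complex.continuous_ofReal.continuousAt.comp (Complex.continuous_im.continuousAt.comp
        (hBc z (fun h => h1 (Finset.mem_sdiff.1 h).1)))
    · exact_mod_cast h2
  obtain ⟨M, hM⟩ := hT.exists_bound_of_continuousOn hcont
  let ε : ℝ := 1 / (|M| + 1)
  have hε : 0 < ε := by positivity
  let a : ℂ → ℂ := fun p => if p ∈ S' then (ε : ℂ) else b p
  have ha : ∀ p ∈ m.support, a p ≠ 0 := by
    intro p hp
    simp only [a]
    split_ifs with h
    · exact_mod_cast hε.ne'
    · exact hb p hp h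
  obtain ⟨R, hRn, hRd⟩ := exists_ratFunc (Pp m A a) (Qp m) (coprime_Pp_Qp m A a ha) (Qp_monic m)
  refine ⟨R, ⟨a, ha, hRn, hRd⟩, ?_⟩
  have hgg : ∀ z, z ∉ m.support → gg R.num R.denom z = B z - ε * G z := by
    intro z hz
    rw [hRn, hRd, gg_eq m A a z hz]
    simp only [B, G]
    rw [sub_sub]
    congr 1
    rw [← Finset.sum_sdiff hS', Finset.mul_sum]
    congr 1
    · apply Finset.sum_congr rfl
      intro q hq
      simp only [a, if_neg (Finset.mem_sdiff.1 hq).2]
    · apply Finset.sum_congr rfl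
      intro q hq
      simp only [a, if_pos hq]
      rw [mul_div_assoc]
  have hTI : ∀ z ∈ T, z ∉ realLocus R := by
    intro z hz hzI
    obtain ⟨h1, h2⟩ := hTS z hz
    rw [mem_realLocus] at hzI
    have h3 : R.denom.eval z ≠ 0 := by rw [hRd]; exact Qp_eval_ne m z h1
    have h4 := hzI.resolve_left h3
    rw [hgg z h1, Complex.sub_im, Complex.im_ofReal_mul] at h4
    have h5 := hM z hz
    rw [norm_div, Complex.norm_real, Real.norm_eq_abs] at h5
    have h6 : 0 < |(B z).im| := abs_pos.2 h2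
    rw [div_le_iff₀ h6] at h5
    have h7 : |(G z).im| ≤ ‖G z‖ := Complex.abs_im_le_norm _
    have h8 : |(B z).im| = ε * |(G z).im| := by
      have : (B z).im = ε * (G z).im := by linarith
      rw [this, abs_mul, abs_of_pos hε]
    have h9 : ε * |(G z).im| ≤ ε * (|M| * |(B z).im|) := by
      apply mul_le_mul_of_nonneg_left _ hε.le
      refine h7.trans (h5.trans ?_)
      exact mul_le_mul_of_nonneg_right (le_abs_self M) h6.le
    have h10 : ε * (|M| * |(B z).im|) < |(B z).im| := by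
      have h11 : ε * |M| < 1 := by
        simp only [ε]
        rw [div_mul_eq_mul_div, one_mul, div_lt_one (by positivity)]
        linarith
      calc ε * (|M| * |(B z).im|) = (ε * |M|) * |(B z).im| := by ring
        _ < 1 * |(B z).im| := mul_lt_mul_of_pos_right h11 h6
        _ = |(B z).im| := one_mul _
    linarith
  have hpI : ∀ p ∈ S', p ∈ realLocus R := by
    intro p hp
    rw [mem_realLocus]
    left
    rw [hRd]
    exact Qp_eval_eq m p (hS' hp)
  have hsub : ∀ p ∈ S', connectedComponentIn (realLocus R) p ⊆ Metric.ball p δ := by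
    intro p hp
    apply IsPreconnected.subset_left_of_subset_union Metric.isOpen_ball
      (Metric.isClosed_closedBall (x := p) (ε := δ)).isOpen_compl
    · exact disjoint_compl_right_iff_subset.2 Metric.ball_subset_closedBall
    · intro z hz
      rcases lt_trichotomy (dist z p) δ with h | h | h
      · exact Or.inl h
      · exact absurd (connectedComponentIn_subset _ _ hz)
          (hTI z (mem_biUnion hp (Metric.mem_sphere.2 h)))
      · right
        simp only [mem_compl_iff, Metric.mem_closedBall, not_le]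
        exact h
    · exact ⟨p, mem_connectedComponentIn (hpI p hp), Metric.mem_ball_self hδ⟩
    · exact isPreconnected_connectedComponentIn
  rw [← Set.encard_coe_eq_coe_finsetCard]
  apply Set.encard_le_encard_of_injOn (f := fun p => connectedComponentIn (realLocus R) p)
  · intro p hp
    exact ⟨⟨p, hpI p hp, rfl⟩, Metric.isBounded_ball.subset (hsub p hp)⟩
  · intro p hp p' hp' h
    simp only at h
    have h1 : p' ∈ connectedComponentIn (realLocus R) p := by
      rw [h]; exact mem_connectedComponentIn (hpI p' hp')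
    have h2 := hsub p hp h1
    exact ((hδ' p hp p' (Metric.ball_subset_closedBall h2)).1 (hS' hp')).symm

/-- **Sharp bound for the number of bounded components.** For every pole divisor
`D = ∑ m p [p] + mInf [∞]` with at least one finite pole, the maximum number `N(D)` of bounded
components of `I_R` is `s(D)` if `∞` is a pole and `s(D) - 1` otherwise, where `s(D)` is the
number of distinct finite poles. -/
theorem result (m : ℂ →₀ ℕ) (mInf : ℕ) (hm : m.support.Nonempty) :
    IsGreatest {n : ℕ∞ | ∃ R : RatFunc ℂ, HasPoleDivisor R m mInf ∧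
        n = (boundedComponents R).encard}
      ((if mInf = 0 then m.support.card - 1 else m.support.card : ℕ) : ℕ∞) := by
  classical
  obtain ⟨p1, hp1⟩ := hm
  -- roots of the denominator
  have hroot : ∀ R : RatFunc ℂ, HasPoleDivisor R m mInf → ∀ p,
      R.denom.eval p = 0 ↔ p ∈ m.support := by
    intro R hR p
    rw [Finsupp.mem_support_iff, ← hR.1 p]
    rw [← IsRoot.def, ← rootMultiplicity_pos (RatFunc.denom_ne_zero R), Nat.pos_iff_ne_zero]
  have upper : ∀ R : RatFunc ℂ, HasPoleDivisor R m mInf →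
      (boundedComponents R).encard ≤
        ((if mInf = 0 then m.support.card - 1 else m.support.card : ℕ) : ℕ∞) := by
    intro R hR
    have hp10 := (hroot R hR p1).2 hp1
    split_ifs with hInf
    · have hd : R.num.natDegree ≤ R.denom.natDegree := by
        have := hR.2; omega
      obtain ⟨p, hp, hpu⟩ := exists_unbounded R p1 hp10 hd
      have hpS := (hroot R hR p).1 hp
      rw [← Finset.card_erase_of_mem hpS]
      apply encard_le_of R p1 hp10
      intro q hq hqb
      refine Finset.mem_erase.2 ⟨?_, (hroot R hR q).1 hq⟩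
      rintro rfl
      exact hpu hqb
    · exact encard_le_of R p1 hp10 _ (fun q hq _ => (hroot R hR q).1 hq)
  have lower : ∃ R : RatFunc ℂ, HasPoleDivisor R m mInf ∧
      ((if mInf = 0 then m.support.card - 1 else m.support.card : ℕ) : ℕ∞) ≤
        (boundedComponents R).encard := by
    split_ifs with hInf
    · -- no pole at infinity
      let bad : Finset ℝ := m.support.image (fun p =>
        - ((m p1 : ℂ) / (p - p1) ^ (m p1 + 1)).im / ((m p1 : ℂ) / (p - p1) ^ (m p1 + 1)).re)
      obtain ⟨t, ht⟩ := Infinite.exists_notMem_finset bad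
      let c : ℂ := 1 + t * Complex.I
      have hc : c ≠ 0 := by
        intro h
        have := congrArg Complex.re h
        simp [c] at this
      obtain ⟨R, ⟨a, ha, hRn, hRd⟩, hR⟩ := loops m (m.support.erase p1) (Finset.erase_subset _ _)
        0 (fun _ => c) (fun _ _ _ => hc) (by
        intro p hp
        have hpS := Finset.mem_of_mem_erase hp
        have hpp := Finset.ne_of_mem_erase hp
        have hsd : m.support \ m.support.erase p1 = {p1} := by
          ext q
          simp only [Finset.mem_sdiff, Finset.mem_erase, not_and, Finset.mem_singleton]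
          constructor
          · rintro ⟨h1, h2⟩
            by_contra h3
            exact h2 h3 h1
          · rintro rfl
            exact ⟨hp1, fun h => absurd rfl h⟩
        rw [hsd, Finset.sum_singleton, derivative_zero, eval_zero, zero_sub, Complex.neg_im,
          neg_ne_zero]
        set v : ℂ := (m p1 : ℂ) / (p - p1) ^ (m p1 + 1) with hv
        have hv0 : v ≠ 0 := by
          refine div_ne_zero ?_ (pow_ne_zero _ (sub_ne_zero.2 hpp))
          exact_mod_cast Finsupp.mem_support_iff.1 hp1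
        have h1 : c * m p1 / (p - p1) ^ (m p1 + 1) = c * v := by rw [hv, mul_div_assoc]
        rw [h1]
        have h2 : (c * v).im = v.im + t * v.re := by
          simp [c, Complex.mul_im]
        rw [h2]
        intro h3
        by_cases hre : v.re = 0
        · rw [hre, mul_zero, add_zero] at h3
          exact hv0 (Complex.ext hre h3)
        · apply ht
          refine Finset.mem_image.2 ⟨p, hpS, ?_⟩
          rw [← hv]
          field_simp
          linarith)
      refine ⟨R, ⟨?_, ?_⟩, ?_⟩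
      · intro p
        rw [hRd]
        exact Qp_rootMultiplicity m p
      · rw [hRn, hRd, hInf]
        exact Pp_sub_natDegree m 0 a 0 (Or.inl ⟨rfl, rfl⟩)
      · rw [← Finset.card_erase_of_mem hp1]
        exact hR
    · -- a pole at infinity
      obtain ⟨k, rfl⟩ : ∃ k, mInf = k + 1 := ⟨mInf - 1, by omega⟩
      let D : ℝ := 1 + ∑ p ∈ m.support, ((k + 1 : ℕ) : ℝ) * ‖p‖ ^ k
      have hD : 0 < D := by positivity
      let A : ℂ[X] := C Complex.I * X + C ((1 / D : ℝ) : ℂ) * X ^ (k + 1)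
      have hAd : A.natDegree = k + 1 := by
        apply natDegree_eq_of_le_of_coeff_ne_zero
        · refine natDegree_add_le_of_degree_le ?_ (natDegree_C_mul_X_pow_le _ _)
          exact ((natDegree_C_mul_le _ _).trans natDegree_X_le).trans (by omega)
        · simp only [A, coeff_add, coeff_C_mul, coeff_X_pow, if_true, mul_one, coeff_X]
          intro h
          have h1 := congrArg Complex.re h
          have h2 : (0 : ℝ) < 1 / D := by positivity
          split_ifs at h1 with h3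
          · simp at h1
            exact hD.ne' h1
          · simp at h1
            exact hD.ne' h1
      obtain ⟨R, ⟨a, ha, hRn, hRd⟩, hR⟩ := loops m m.support subset_rfl A (fun _ => 1)
        (fun _ h1 h2 => absurd h1 h2) (by
        intro p hp
        rw [Finset.sdiff_self, Finset.sum_empty, sub_zero]
        have h1 : (derivative A).eval p =
            Complex.I + ((1 / D : ℝ) : ℂ) * (((k + 1 : ℕ) : ℂ) * p ^ k) := by
          simp only [A, derivative_add, derivative_C_mul, derivative_X, derivative_X_pow,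
            eval_add, eval_mul, eval_C, eval_pow, eval_X, Nat.add_sub_cancel, mul_one]
        rw [h1, Complex.add_im, Complex.I_im, Complex.im_ofReal_mul]
        intro h2
        have h3 : |(((k + 1 : ℕ) : ℂ) * p ^ k).im| ≤ ((k + 1 : ℕ) : ℝ) * ‖p‖ ^ k := by
          refine (Complex.abs_im_le_norm _).trans ?_
          rw [norm_mul, norm_pow, Complex.norm_natCast]
        have h4 : ((k + 1 : ℕ) : ℝ) * ‖p‖ ^ k ≤ ∑ p ∈ m.support, ((k + 1 : ℕ) : ℝ) * ‖p‖ ^ k :=
          Finset.single_le_sum (f := fun p : ℂ => ((k + 1 : ℕ) : ℝ) * ‖p‖ ^ k)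
            (fun _ _ => by positivity) hp
        have h5 : |(((k + 1 : ℕ) : ℂ) * p ^ k).im| < D := by
          simp only [D]; linarith
        have h6 : (((k + 1 : ℕ) : ℂ) * p ^ k).im = -D := by
          have : 1 / D * (((k + 1 : ℕ) : ℂ) * p ^ k).im = -1 := by linarith
          field_simp at this
          linarith
        rw [h6, abs_neg, abs_of_pos hD] at h5
        exact lt_irrefl _ h5)
      refine ⟨R, ⟨?_, ?_⟩, hR⟩
      · intro p
        rw [hRd]
        exact Qp_rootMultiplicity m p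
      · rw [hRn, hRd]
        exact Pp_sub_natDegree m A a (k + 1) (Or.inr ⟨by omega, hAd⟩)
  constructor
  · obtain ⟨R, hR1, hR2⟩ := lower
    exact ⟨R, hR1, le_antisymm hR2 (upper R hR1)⟩
  · rintro n ⟨R, hR, rfl⟩
    exact upper R hR

end Pool.Agent.Results.MP_bd2914_ag.SharpBound
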